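import Pool.Agent.H55.CG.Targets

/-!
# Row PWA: the pointwise lower bound (helper63)
-/

set_option autoImplicit false

open MeasureTheory ProbabilityTheory Filter Topology
open Pool.Agent.H95 Pool.Agent.H95.Cop Pool.Agent.H55.CG

namespace Pool.Agent.H63.CG.PWA

/-- the tangent line -/
private theorem dist (α c p : ℝ) (d B : ℕ) (hα : 0 < α) (hc : 0 < c) (hp : 0 < p) (hd : 1 ≤ d)
    (hB : 1 ≤ B) :
    Real.log (c / 2) - (1 + α) * Real.log (B : ℝ) - (1 + α) * (Real.log (1 / p) - 1) -
      (1 + α) * p * d ≤ Real.log (c / 2 * ((d * B : ℕ) : ℝ) ^ (-(1 + α))) := by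
  have hd' : (0 : ℝ) < d := by exact_mod_cast hd
  have hB' : (0 : ℝ) < B := by exact_mod_cast hB
  have h1 : (0 : ℝ) < ((d * B : ℕ) : ℝ) := by rw [Nat.cast_mul]; exact mul_pos hd' hB'
  rw [Real.log_mul (by positivity) (Real.rpow_pos_of_pos h1 _).ne', Real.log_rpow h1,
    Nat.cast_mul, Real.log_mul hd'.ne' hB'.ne']
  have h2 : Real.log (p * d) ≤ p * d - 1 := Real.log_le_sub_one_of_pos (mul_pos hp hd')
  rw [Real.log_mul hp.ne' hd'.ne'] at h2
  have h3 : Real.log (1 / p) = -Real.log p := by rw [one_div, Real.log_inv]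
  rw [h3]
  have h4 : 0 ≤ (1 + α) * (p * d - 1 - (Real.log p + Real.log d)) :=
    mul_nonneg (by linarith) (by linarith)
  nlinarith [h4]

private theorem SS_pos (K : PMF ℕ) (ℓ B N : ℕ) (x : ℕ → ℝ) (j : ℕ) (hℓ : 1 ≤ ℓ) :
    0 < SS K ℓ B N x j := by
  unfold SS
  refine Finset.sum_pos (fun y _ => V_pos K N x y) ?_
  exact ⟨j * B + ℓ, Finset.mem_Ico.mpr ⟨le_rfl, by omega⟩⟩

theorem pf_PWA (hSTA : T_STA) (hSTF : T_STF) (hSTZ : T_STZ) : T_PWA := by
  intro K hK α c n0 hα hc hk ℓ m M x hℓ hn0 hm hT g p hp S hS hX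
  set B : ℕ := (2 * m + 2) * ℓ with hBdef
  have hB1 : 1 ≤ B := by
    have : 1 * 1 ≤ (2 * m + 2) * ℓ := Nat.mul_le_mul (by omega) hℓ
    omega
  set P : ℝ := g + Real.log (c / 2) - (1 + α) * Real.log (B : ℝ) -
      (1 + α) * (Real.log (1 / p) - 1) with hP
  set T : ℝ := tailK K (M * B) / 2 with hTd
  have hTpos : 0 < T := by rw [hTd]; linarith
  have hMB : ∀ j ∈ S, (j + 1) * B ≤ M * B := fun j hj =>
    Nat.mul_le_mul_right B (Nat.succ_le_of_lt (Finset.mem_range.mp (hS hj)))
  -- the chain of the good blocks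
  have key : ∀ n : ℕ, ∀ j ∈ S, M - j ≤ n →
      ((S.filter fun i => j < i).card : ℝ) * P + g - (1 + α) * p * ((M : ℝ) - 1 - j) +
        Real.log T ≤ Real.log (SS K ℓ B (M * B) x j) := by
    intro n
    induction n with
    | zero =>
      intro j hj hn
      have := Finset.mem_range.mp (hS hj)
      omega
    | succ n ih =>
      intro j hj hn
      have hjM : j < M := Finset.mem_range.mp (hS hj)
      have hjM' : (j : ℝ) + 1 ≤ M := by exact_mod_cast hjM
      have hg : g ≤ Real.log (XB K ℓ m (shift (j * B) x)) := by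
        have h1 := hX j hj
        have h2 := Real.log_le_log (Real.exp_pos g) h1
        rwa [Real.log_exp] at h2
      have hXpos : 0 < XB K ℓ m (shift (j * B) x) := lt_of_lt_of_le (Real.exp_pos g) (hX j hj)
      by_cases hne : (S.filter fun i => j < i).Nonempty
      · set j' := (S.filter fun i => j < i).min' hne with hj'
        have hj'm := Finset.min'_mem _ hne
        rw [← hj', Finset.mem_filter] at hj'm
        obtain ⟨hj'S, hjj'⟩ := hj'm
        have hj'M : j' < M := Finset.mem_range.mp (hS hj'S)
        have h1 := hSTA K hK α c n0 hα hc hk ℓ m (M * B) x hℓ hn0 hm j j' hjj' (hMB j' hj'S)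
        have hSp := SS_pos K ℓ B (M * B) x j' hℓ
        have hDp : 0 < c / 2 * ((((j' - j) * B : ℕ)) : ℝ) ^ (-(1 + α)) := by
          have h5 : (0 : ℝ) < (((j' - j) * B : ℕ) : ℝ) := by
            exact_mod_cast Nat.mul_pos (by omega) (by omega)
          have := Real.rpow_pos_of_pos h5 (-(1 + α))
          positivity
        have h2 := Real.log_le_log (mul_pos hXpos (mul_pos hDp hSp)) h1
        rw [Real.log_mul hXpos.ne' (mul_pos hDp hSp).ne', Real.log_mul hDp.ne' hSp.ne'] at h2
        have h3 := dist α c p (j' - j) B hα hc hp (by omega) hB1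
        have h4 := ih j' hj'S (by omega)
        have hcard : ((S.filter fun i => j < i).card : ℝ) =
            1 + ((S.filter fun i => j' < i).card : ℝ) := by
          have h5 : (S.filter fun i => j < i) = insert j' (S.filter fun i => j' < i) := by
            ext i
            simp only [Finset.mem_filter, Finset.mem_insert]
            constructor
            · rintro ⟨hi, hji⟩
              have h6 : j' ≤ i := Finset.min'_le _ _ (Finset.mem_filter.mpr ⟨hi, hji⟩)
              rcases Nat.eq_or_lt_of_le h6 with h7 | h7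
              · left; exact h7.symm
              · right; exact ⟨hi, h7⟩
            · rintro (rfl | ⟨hi, hji⟩)
              · exact ⟨hj'S, hjj'⟩
              · exact ⟨hi, lt_trans hjj' hji⟩
          rw [h5, Finset.card_insert_of_notMem (by simp), Nat.cast_add, Nat.cast_one, add_comm]
        rw [hcard]
        have hcast : (((j' - j : ℕ)) : ℝ) = (j' : ℝ) - j := by
          rw [Nat.cast_sub hjj'.le]
        rw [hcast] at h3
        have h8 : (1 + ((S.filter fun i => j' < i).card : ℝ)) * P + g -
            (1 + α) * p * ((M : ℝ) - 1 - j) + Real.log T =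
            g + (Real.log (c / 2) - (1 + α) * Real.log (B : ℝ) -
              (1 + α) * (Real.log (1 / p) - 1) - (1 + α) * p * ((j' : ℝ) - j)) +
            (((S.filter fun i => j' < i).card : ℝ) * P + g -
              (1 + α) * p * ((M : ℝ) - 1 - j') + Real.log T) := by
          rw [hP]; ring
        rw [h8]
        linarith
      · have h0 : (S.filter fun i => j < i).card = 0 :=
          Finset.card_eq_zero.mpr (Finset.not_nonempty_iff_eq_empty.mp hne)
        rw [h0, Nat.cast_zero, zero_mul, zero_add]
        have h1 := hSTF K hK ℓ m (M * B) x hℓ hm j (hMB j hj)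
        have h2 := Real.log_le_log (mul_pos hXpos hTpos) h1
        rw [Real.log_mul hXpos.ne' hTpos.ne'] at h2
        have h3 : 0 ≤ (1 + α) * p * ((M : ℝ) - 1 - j) :=
          mul_nonneg (mul_nonneg (by linarith) hp.le) (by linarith)
        linarith
  obtain ⟨z1, z2⟩ := hSTZ K hK α c n0 hα hc hk ℓ m (M * B) x hℓ hn0 hm
  by_cases hne : S.Nonempty
  · set j := S.min' hne with hj
    have hjS : j ∈ S := Finset.min'_mem _ hne
    have h1 := z2 j (hMB j hjS)
    have hSp := SS_pos K ℓ B (M * B) x j hℓ
    have hDp : 0 < c / 2 * ((((j + 1) * B : ℕ)) : ℝ) ^ (-(1 + α)) := by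
      have h5 : (0 : ℝ) < (((j + 1) * B : ℕ) : ℝ) := by
        exact_mod_cast Nat.mul_pos (by omega) (by omega)
      have := Real.rpow_pos_of_pos h5 (-(1 + α))
      positivity
    have h2 := Real.log_le_log (mul_pos hDp hSp) h1
    rw [Real.log_mul hDp.ne' hSp.ne'] at h2
    have h3 := dist α c p (j + 1) B hα hc hp (by omega) hB1
    have h4 := key (M - j) j hjS le_rfl
    have hcard : (S.card : ℝ) = 1 + ((S.filter fun i => j < i).card : ℝ) := by
      have h5 : S = insert j (S.filter fun i => j < i) := by
        ext i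
        simp only [Finset.mem_filter, Finset.mem_insert]
        constructor
        · intro hi
          have h6 : j ≤ i := Finset.min'_le _ _ hi
          rcases Nat.eq_or_lt_of_le h6 with h7 | h7
          · left; exact h7.symm
          · right; exact ⟨hi, h7⟩
        · rintro (h | ⟨hi, _⟩)
          · rw [h]; exact hjS
          · exact hi
      have h6 : S.card = (insert j (S.filter fun i => j < i)).card := congrArg Finset.card h5
      rw [h6, Finset.card_insert_of_notMem (by simp), Nat.cast_add, Nat.cast_one, add_comm]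
    rw [hcard]
    push_cast at h3
    have h8 : (1 + ((S.filter fun i => j < i).card : ℝ)) * P - (1 + α) * p * (M : ℝ) +
        Real.log T =
        (Real.log (c / 2) - (1 + α) * Real.log (B : ℝ) -
          (1 + α) * (Real.log (1 / p) - 1) - (1 + α) * p * ((j : ℝ) + 1)) +
        (((S.filter fun i => j < i).card : ℝ) * P + g -
          (1 + α) * p * ((M : ℝ) - 1 - j) + Real.log T) := by
      rw [hP]; ring
    rw [h8]
    push_cast at h2
    linarith
  · have h0 : S.card = 0 := Finset.card_eq_zero.mpr (Finset.not_nonempty_iff_eq_empty.mp hne)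
    rw [h0, Nat.cast_zero, zero_mul]
    have h2 := Real.log_le_log hTpos z1
    have h3 : 0 ≤ (1 + α) * p * (M : ℝ) :=
      mul_nonneg (mul_nonneg (by linarith) hp.le) (Nat.cast_nonneg M)
    linarith

end Pool.Agent.H63.CG.PWA
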